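import Pool.Agent.Y773.NV.St1

/-!
# The diagonal terms

Helper of helper773's project NV (job DIAG), by helper871.
-/

set_option autoImplicit false

open Complex MeasureTheory NumberField

namespace Pool.Agent.Y871.NV

open Pool.Agent.Y773 (LI)
open Pool.Agent.Y773.NV

variable {K : Type} [Field K] [NumberField K]

lemma nm_mul (a b : Ideal (𝓞 K)) : nm (a * b) = nm a * nm b := by
  unfold nm
  rw [map_mul, Nat.cast_mul]

lemma nm_nonneg (a : Ideal (𝓞 K)) : 0 ≤ nm a := Nat.cast_nonneg _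

lemma nm_pos {a : Ideal (𝓞 K)} (h : a ≠ ⊥) : 0 < nm a := by
  unfold nm
  have : Ideal.absNorm a ≠ 0 := by rwa [Ne, Ideal.absNorm_eq_zero_iff]
  exact_mod_cast Nat.pos_of_ne_zero this

lemma nm_idl (A : Finset (Ideal (𝓞 K))) : nm (idl A) = nA nm A := by
  unfold nm idl nA
  rw [map_prod, Nat.cast_prod]

lemma coprime_of_prime {p f : Ideal (𝓞 K)} (hp : Prime p) (h : ¬ p ∣ f) : IsCoprime p f := by
  rw [Ideal.isCoprime_iff_sup_eq]
  have hm : p.IsMaximal := (Ideal.isPrime_of_prime hp).isMaximal hp.ne_zero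
  refine hm.1.2 _ (lt_of_le_of_ne le_sup_left ?_)
  intro he
  exact h (Ideal.dvd_iff_le.mpr (by rw [he]; exact le_sup_right))

lemma coprime_idl {f : Ideal (𝓞 K)} {A : Finset (Ideal (𝓞 K))}
    (hA : ∀ p ∈ A, Prime p ∧ ¬ p ∣ f) : IsCoprime (idl A) f :=
  IsCoprime.prod_left fun p hp => coprime_of_prime (hA p hp).1 (hA p hp).2

lemma idl_ne {A : Finset (Ideal (𝓞 K))} (hA : ∀ p ∈ A, Prime p) : idl A ≠ ⊥ := by
  unfold idl
  rw [← Ideal.zero_eq_bot]
  exact Finset.prod_ne_zero_iff.mpr fun p hp => (hA p hp).ne_zero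

lemma idl_dvd {A : Finset (Ideal (𝓞 K))} (hA : ∀ p ∈ A, Prime p) {u : Ideal (𝓞 K)} :
    idl A ∣ u ↔ ∀ p ∈ A, p ∣ u := by
  unfold idl
  constructor
  · intro h p hp
    have h1 : p ∣ ∏ q ∈ A, q := Finset.dvd_prod_of_mem (fun q => q) hp
    exact h1.trans h
  · intro h
    exact Finset.prod_primes_dvd u hA h

open Classical in
/-- summability -/
lemma summable_ch (hdiv : St_DIV) (f : Ideal (𝓞 K)) {s : ℂ} (hs : 1 < s.re) :
    Summable fun a : Ideal (𝓞 K) => ch f a * ((Ideal.absNorm a : ℕ) : ℂ) ^ (-s) := by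
  obtain ⟨C, -, -, hC⟩ := hdiv K (s.re - 1) (by linarith)
  have hsum : Summable fun a : Ideal (𝓞 K) => if a ≠ ⊥ then nm a ^ (-s.re) else 0 := by
    refine summable_of_sum_le (c := C) (fun a => ?_) fun S => ?_
    · split_ifs
      · exact Real.rpow_nonneg (nm_nonneg a) _
      · exact le_rfl
    · rw [← Finset.sum_filter]
      refine le_trans (le_of_eq ?_) (hC (S.filter fun a => a ≠ ⊥) fun a ha => (Finset.mem_filter.mp ha).2)
      refine Finset.sum_congr rfl fun a _ => ?_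
      congr 1
      ring
  refine Summable.of_norm_bounded hsum fun a => ?_
  by_cases ha : a ≠ ⊥
  · rw [if_pos ha, norm_mul]
    have h1 : ‖ch f a‖ ≤ 1 := by
      change ‖(if a ≠ ⊥ ∧ IsCoprime a f then (1 : ℂ) else 0)‖ ≤ 1
      split_ifs
      · simp
      · simp
    have h2 : ‖((Ideal.absNorm a : ℕ) : ℂ) ^ (-s)‖ = nm a ^ (-s.re) := by
      have h3 : (((Ideal.absNorm a : ℕ)) : ℂ) = ((nm a : ℝ) : ℂ) := by
        unfold nm
        push_cast
        rfl
      rw [h3, Complex.norm_cpow_eq_rpow_re_of_pos (nm_pos ha), Complex.neg_re]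
    rw [h2]
    exact mul_le_of_le_one_left (Real.rpow_nonneg (nm_nonneg a) _) h1
  · have ha' : a = ⊥ := not_not.mp ha
    rw [if_neg ha, ha', ← Ideal.zero_eq_bot, map_zero, zero_mul, norm_zero]

open Classical in
/-- the multiples of `D` -/
lemma hasSum_dvd (hdiv : St_DIV) {f D : Ideal (𝓞 K)} (hD : D ≠ ⊥) (hDf : IsCoprime D f) {s : ℂ}
    (hs : 1 < s.re) :
    HasSum (fun u : Ideal (𝓞 K) => if (u ≠ ⊥ ∧ IsCoprime u f) ∧ D ∣ u then
      ((nm u : ℝ) : ℂ) ^ (-s) else 0) (((nm D : ℝ) : ℂ) ^ (-s) * LI (ch f) s) := by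
  have hinj : Function.Injective fun c : Ideal (𝓞 K) => D * c := by
    intro a b hab
    have hab' : D * a = D * b := hab
    exact mul_left_cancel₀ (by rw [Ideal.zero_eq_bot]; exact hD) hab'
  rw [← hinj.hasSum_iff]
  · have h := (summable_ch hdiv f hs).hasSum.mul_left (((nm D : ℝ) : ℂ) ^ (-s))
    have he : ((fun u : Ideal (𝓞 K) => if (u ≠ ⊥ ∧ IsCoprime u f) ∧ D ∣ u then
        ((nm u : ℝ) : ℂ) ^ (-s) else 0) ∘ fun c : Ideal (𝓞 K) => D * c) =
        fun c => ((nm D : ℝ) : ℂ) ^ (-s) * (ch f c * ((Ideal.absNorm c : ℕ) : ℂ) ^ (-s)) := by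
      funext c
      change (if (D * c ≠ ⊥ ∧ IsCoprime (D * c) f) ∧ D ∣ D * c then
        ((nm (D * c) : ℝ) : ℂ) ^ (-s) else 0) = ((nm D : ℝ) : ℂ) ^ (-s) *
          ((if c ≠ ⊥ ∧ IsCoprime c f then (1 : ℂ) else 0) * ((Ideal.absNorm c : ℕ) : ℂ) ^ (-s))
      by_cases hc : c ≠ ⊥ ∧ IsCoprime c f
      · have h1 : D * c ≠ ⊥ := by
          rw [← Ideal.zero_eq_bot]
          exact mul_ne_zero (by rw [Ideal.zero_eq_bot]; exact hD)
            (by rw [Ideal.zero_eq_bot]; exact hc.1)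
        have h2 : IsCoprime (D * c) f := IsCoprime.mul_left hDf hc.2
        rw [if_pos ⟨⟨h1, h2⟩, dvd_mul_right D c⟩, if_pos hc, one_mul, nm_mul, Complex.ofReal_mul,
          Complex.mul_cpow_ofReal_nonneg (nm_nonneg D) (nm_nonneg c)]
        have h3 : (((Ideal.absNorm c : ℕ)) : ℂ) = ((nm c : ℝ) : ℂ) := by
          unfold nm
          push_cast
          rfl
        rw [h3]
      · rw [if_neg hc, zero_mul, mul_zero, if_neg]
        rintro ⟨⟨h1, h2⟩, -⟩
        refine hc ⟨fun h0 => h1 (by rw [h0, Ideal.mul_bot]), (IsCoprime.mul_left_iff.mp h2).2⟩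
    rw [he]
    exact h
  · intro u hu
    rw [if_neg]
    rintro ⟨-, c, hc⟩
    exact hu ⟨c, hc.symm⟩

/-- the coefficient of a pair of sets -/
noncomputable def cf (f : Ideal (𝓞 K)) (M : ℝ) (w : ℂ) (A B : Finset (Ideal (𝓞 K))) : ℂ :=
  ((bS (Pr f M) nm M A * bS (Pr f M) nm M B : ℝ) : ℂ) * ((nA nm A * nA nm B : ℝ) : ℂ) ^ w

lemma nA_nonneg (A : Finset (Ideal (𝓞 K))) : 0 ≤ nA nm A :=
  Finset.prod_nonneg fun p _ => nm_nonneg p

/-- conjugation of a power with positive base -/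
lemma conj_cpow {x : ℝ} (hx : 0 ≤ x) (z : ℂ) :
    (starRingEnd ℂ) ((x : ℂ) ^ z) = (x : ℂ) ^ ((starRingEnd ℂ) z) := by
  have harg : ((x : ℝ) : ℂ).arg ≠ Real.pi := by
    rw [Complex.arg_ofReal_of_nonneg hx]
    exact Real.pi_pos.ne
  have h := Complex.conj_cpow (x : ℂ) z harg
  rw [Complex.conj_ofReal] at h
  rw [h, Complex.conj_conj] 

open Classical in
/-- one product -/
lemma aC_mul (f : Ideal (𝓞 K)) (M t : ℝ) (w : ℂ) {u : Ideal (𝓞 K)} (hu : u ≠ ⊥) :
    aC f M t (hp t + w) u * (starRingEnd ℂ) (aC f M t (hp t + (starRingEnd ℂ) w) u) =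
      ∑ A ∈ SM (Pr f M) nm M, ∑ B ∈ SM (Pr f M) nm M,
        cf f M w A B * (if idl A ∣ u ∧ idl B ∣ u then ((nm u : ℝ) : ℂ) ^ (-(1 + 2 * w)) else 0) := by
  unfold aC
  rw [map_sum, Finset.sum_filter, Finset.sum_filter, Finset.sum_mul_sum]
  refine Finset.sum_congr rfl fun A _ => Finset.sum_congr rfl fun B _ => ?_
  have hn : ((nm u : ℝ) : ℂ) ≠ 0 := by exact_mod_cast (nm_pos hu).ne'
  by_cases hA : idl A ∣ u
  · by_cases hB : idl B ∣ u
    · rw [if_pos hA, if_pos hB, if_pos ⟨hA, hB⟩, map_mul, map_mul, Complex.conj_ofReal,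
        conj_cpow (nA_nonneg B), conj_cpow (nm_nonneg u)]
      have e1 : hp t + w - hp t = w := by ring
      have e2 : (starRingEnd ℂ) (hp t + (starRingEnd ℂ) w - hp t) = w := by
        rw [add_sub_cancel_left, Complex.conj_conj]
      have e3 : -(1 + 2 * w) = -(hp t + w) + (starRingEnd ℂ) (-(hp t + (starRingEnd ℂ) w)) := by
        unfold hp
        simp only [map_neg, map_add, map_mul, map_div₀, map_one, Complex.conj_conj,
          Complex.conj_ofReal, Complex.conj_I, map_ofNat]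
        ring
      rw [e1, e2, e3, Complex.cpow_add _ _ hn]
      unfold cf
      rw [Complex.ofReal_mul (nA nm A), Complex.mul_cpow_ofReal_nonneg (nA_nonneg A) (nA_nonneg B)]
      push_cast
      ring
    · rw [if_neg hB, mul_zero, if_neg (fun h => hB h.2), mul_zero]
  · rw [if_neg hA, zero_mul, if_neg (fun h => hA h.1), mul_zero]

open Classical in
/-- the union, with the classical instance -/
noncomputable def un {ι : Type} (A B : Finset ι) : Finset ι := A ∪ B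

open Classical in
lemma mem_un {ι : Type} {A B : Finset ι} {x : ι} : x ∈ un A B ↔ x ∈ A ∨ x ∈ B := by
  unfold un
  exact Finset.mem_union

lemma BB_eq {ι : Type} (P : Finset ι) (N : ι → ℝ) (M : ℝ) (w : ℂ) : BB P N M w =
    ∑ A ∈ SM P N M, ∑ B ∈ SM P N M, ((bS P N M A * bS P N M B : ℝ) : ℂ) *
      ((nA N A * nA N B : ℝ) : ℂ) ^ w * ((nA N (un A B) : ℝ) : ℂ) ^ (-1 - 2 * w) := rfl

open Classical in
/-- **The diagonal terms** (job DIAG). -/
theorem t_diag (hdiv : St_DIV) : St_DIAG := by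
  intro K _ _ f M t w hf hM hw
  have hs : 1 < (1 + 2 * w).re := by
    simp
    linarith
  have hmem : ∀ A ∈ SM (Pr f M) nm M, ∀ p ∈ A, Prime p ∧ ¬ p ∣ f := by
    intro A hA p hp
    have h1 := Finset.mem_powerset.mp (Finset.mem_filter.mp hA).1
    exact ⟨(mem_Pr.mp (h1 hp)).1, (mem_Pr.mp (h1 hp)).2.1⟩
  have key : ∀ A ∈ SM (Pr f M) nm M, ∀ B ∈ SM (Pr f M) nm M,
      HasSum (fun u : Ideal (𝓞 K) => if u ≠ ⊥ ∧ IsCoprime u f then cf f M w A B *
        (if idl A ∣ u ∧ idl B ∣ u then ((nm u : ℝ) : ℂ) ^ (-(1 + 2 * w)) else 0) else 0)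
        (cf f M w A B * (((nA nm (un A B) : ℝ) : ℂ) ^ (-(1 + 2 * w)) * LI (ch f) (1 + 2 * w))) := by
    intro A hA B hB
    have hU : ∀ p ∈ un A B, Prime p ∧ ¬ p ∣ f := by
      intro p hp
      rcases mem_un.mp hp with h | h
      · exact hmem A hA p h
      · exact hmem B hB p h
    have h := (hasSum_dvd hdiv (idl_ne fun p hp => (hU p hp).1) (coprime_idl hU) hs).mul_left
      (cf f M w A B)
    rw [nm_idl] at h
    have he : (fun u : Ideal (𝓞 K) => if u ≠ ⊥ ∧ IsCoprime u f then cf f M w A B *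
        (if idl A ∣ u ∧ idl B ∣ u then ((nm u : ℝ) : ℂ) ^ (-(1 + 2 * w)) else 0) else 0) =
        fun u => cf f M w A B * (if (u ≠ ⊥ ∧ IsCoprime u f) ∧ idl (un A B) ∣ u then
          ((nm u : ℝ) : ℂ) ^ (-(1 + 2 * w)) else 0) := by
      funext u
      have hiff : (idl A ∣ u ∧ idl B ∣ u) ↔ idl (un A B) ∣ u := by
        rw [idl_dvd fun p hp => (hmem A hA p hp).1, idl_dvd fun p hp => (hmem B hB p hp).1,
          idl_dvd fun p hp => (hU p hp).1]
        constructor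
        · rintro ⟨h1, h2⟩ p hp
          rcases mem_un.mp hp with h | h
          · exact h1 p h
          · exact h2 p h
        · intro h
          exact ⟨fun p hp => h p (mem_un.mpr (Or.inl hp)),
            fun p hp => h p (mem_un.mpr (Or.inr hp))⟩
      by_cases h1 : u ≠ ⊥ ∧ IsCoprime u f
      · by_cases h2 : idl (un A B) ∣ u
        · rw [if_pos h1, if_pos (hiff.mpr h2), if_pos ⟨h1, h2⟩]
        · rw [if_pos h1, if_neg (fun h => h2 (hiff.mp h)), if_neg (fun h => h2 h.2)]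
      · rw [if_neg h1, if_neg (fun h => h1 h.1), mul_zero]
    rw [he]
    exact h
  have hall := hasSum_sum (s := SM (Pr f M) nm M) fun A hA =>
    hasSum_sum (s := SM (Pr f M) nm M) fun B hB => key A hA B hB
  have hfun : (fun u : Ideal (𝓞 K) => if u ≠ ⊥ ∧ IsCoprime u f then
      aC f M t (hp t + w) u * (starRingEnd ℂ) (aC f M t (hp t + (starRingEnd ℂ) w) u) else 0) =
      fun u => ∑ A ∈ SM (Pr f M) nm M, ∑ B ∈ SM (Pr f M) nm M,
        (if u ≠ ⊥ ∧ IsCoprime u f then cf f M w A B *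
        (if idl A ∣ u ∧ idl B ∣ u then ((nm u : ℝ) : ℂ) ^ (-(1 + 2 * w)) else 0) else 0) := by
    funext u
    by_cases h1 : u ≠ ⊥ ∧ IsCoprime u f
    · rw [if_pos h1, aC_mul f M t w h1.1]
      refine Finset.sum_congr rfl fun A _ => Finset.sum_congr rfl fun B _ => ?_
      rw [if_pos h1]
    · rw [if_neg h1]
      symm
      refine Finset.sum_eq_zero fun A _ => Finset.sum_eq_zero fun B _ => ?_
      rw [if_neg h1]
  have hgoal := hall.tsum_eq
  rw [hfun, hgoal, BB_eq, Finset.mul_sum]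
  refine Finset.sum_congr rfl fun A _ => ?_
  rw [Finset.mul_sum]
  refine Finset.sum_congr rfl fun B _ => ?_
  unfold cf
  have e : -1 - 2 * w = -(1 + 2 * w) := by ring
  rw [e]
  ring

end Pool.Agent.Y871.NV
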